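import Mathlib

/-!
# A product inequality for concave functions (piece L4 of the proof of (MOD))

`U`, `W` are non-negative on `[0, ∞)`, with supergradients `u`, `v ≥ 0`.  If the weight `w ≥ 0` has
`(1 + z) w(z) ≤ 2 p ∫_z^∞ w`, then `∫ u v z (1 + z) w / p ≤ ∫ U W w`.
-/

set_option autoImplicit false

namespace Pool.Agent.Lib_helper14.MOD

open MeasureTheory Set

/-- `u` is a supergradient of `U` on `[0, ∞)`. -/
def SuperGrad (U u : ℝ → ℝ) : Prop :=
  ∀ z z' : ℝ, 0 ≤ z → 0 ≤ z' → U z' ≤ U z + u z * (z' - z)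

theorem SuperGrad.antitone {U u : ℝ → ℝ} (h : SuperGrad U u) : AntitoneOn u (Ici 0) := by
  intro a ha b hb hab
  rcases hab.eq_or_lt with rfl | hlt
  · exact le_rfl
  have h1 := h a b ha hb
  have h2 := h b a hb ha
  have h3 : u b * (b - a) ≤ u a * (b - a) := by linarith
  exact le_of_mul_le_mul_right h3 (by linarith)

/-- the increments of the product -/
theorem prod_step {U W u v : ℝ → ℝ} (hU : SuperGrad U u) (hW : SuperGrad W v)
    (hU0 : 0 ≤ U 0) (hW0 : 0 ≤ W 0) (hu : ∀ z, 0 ≤ z → 0 ≤ u z) (hv : ∀ z, 0 ≤ z → 0 ≤ v z)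
    {a b : ℝ} (ha : 0 ≤ a) (hab : a ≤ b) :
    (b ^ 2 - a ^ 2) * (u b * v b) ≤ U b * W b - U a * W a := by
  have hb : 0 ≤ b := ha.trans hab
  have h1 : u b * (b - a) ≤ U b - U a := by have := hU b a hb ha; linarith
  have h2 : v b * (b - a) ≤ W b - W a := by have := hW b a hb ha; linarith
  have h3 : b * v b ≤ W b := by have := hW b 0 hb le_rfl; linarith
  have h4 : a * u b ≤ U a := by
    have h5 := hU a 0 ha le_rfl
    have h6 : u b ≤ u a := hU.antitone (mem_Ici.2 ha) (mem_Ici.2 hb) hab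
    have h7 : a * u b ≤ a * u a := mul_le_mul_of_nonneg_left h6 ha
    linarith
  have hub := hu b hb
  have hvb := hv b hb
  have hd : 0 ≤ b - a := by linarith
  have e1 : 0 ≤ (U b - U a - u b * (b - a)) * W b :=
    mul_nonneg (by linarith) (le_trans (mul_nonneg hb hvb) h3)
  have e2 : 0 ≤ U a * (W b - W a - v b * (b - a)) :=
    mul_nonneg (le_trans (mul_nonneg ha hub) h4) (by linarith)
  have e3 : 0 ≤ (u b * (b - a)) * (W b - b * v b) :=
    mul_nonneg (mul_nonneg hub hd) (by linarith)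
  have e4 : 0 ≤ (U a - a * u b) * (v b * (b - a)) :=
    mul_nonneg (by linarith) (mul_nonneg hvb hd)
  nlinarith [e1, e2, e3, e4]

/-- the primitive of `2 z h(z)` for an antitone `h` -/
theorem int_le {h : ℝ → ℝ} (hh : AntitoneOn h (Ici 0)) {a b : ℝ} (ha : 0 ≤ a) (hab : a ≤ b) :
    ∫ z in a..b, 2 * z * h z ≤ (b ^ 2 - a ^ 2) * h a := by
  have hI : IntervalIntegrable h volume a b := by
    apply AntitoneOn.intervalIntegrable
    rw [uIcc_of_le hab]
    exact hh.mono fun x hx => mem_Ici.2 (ha.trans hx.1)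
  have hI2 : IntervalIntegrable (fun z => 2 * z * h z) volume a b :=
    hI.continuousOn_mul (by fun_prop)
  have h1 : ∫ z in a..b, 2 * z * h z ≤ ∫ z in a..b, 2 * z * h a := by
    apply intervalIntegral.integral_mono_on hab hI2
      ((by fun_prop : Continuous fun z : ℝ => 2 * z * h a).intervalIntegrable _ _)
    intro x hx
    have hx0 : 0 ≤ x := ha.trans hx.1
    exact mul_le_mul_of_nonneg_left (hh (mem_Ici.2 ha) (mem_Ici.2 hx0) hx.1) (by linarith)
  have h2 : ∫ z in a..b, 2 * z * h a = (b ^ 2 - a ^ 2) * h a := by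
    rw [intervalIntegral.integral_mul_const, intervalIntegral.integral_const_mul, integral_id]
    ring
  linarith

theorem prim_le {F h : ℝ → ℝ} (hh : AntitoneOn h (Ici 0))
    (hF : ∀ a b : ℝ, 0 ≤ a → a ≤ b → (b ^ 2 - a ^ 2) * h b ≤ F b - F a) {y : ℝ} (hy : 0 ≤ y) :
    ∫ z in (0 : ℝ)..y, 2 * z * h z ≤ F y - F 0 := by
  have hI : ∀ a b : ℝ, 0 ≤ a → 0 ≤ b → IntervalIntegrable (fun z => 2 * z * h z) volume a b := by
    intro a b ha hb
    refine IntervalIntegrable.continuousOn_mul ?_ (by fun_prop)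
    apply AntitoneOn.intervalIntegrable
    exact hh.mono fun x hx => mem_Ici.2 (le_trans (le_inf ha hb) hx.1)
  -- the bound with `n` steps
  have key : ∀ n : ℕ, 0 < n →
      ∫ z in (0 : ℝ)..y, 2 * z * h z ≤ F y - F 0 + 2 * y ^ 2 * (h 0 - h y) / n := by
    intro n hn
    have hn' : (0 : ℝ) < n := by exact_mod_cast hn
    set b : ℕ → ℝ := fun i => i * y / n with hb
    have hb0 : ∀ i, 0 ≤ b i := fun i => by simp only [hb]; positivity
    have hbs : ∀ i, b i ≤ b (i + 1) := fun i => by
      simp only [hb]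
      apply div_le_div_of_nonneg_right _ hn'.le
      push_cast
      nlinarith
    have hbn : b n = y := by simp only [hb]; field_simp
    have hb00 : b 0 = 0 := by simp [hb]
    have hsum : ∫ z in (0 : ℝ)..y, 2 * z * h z =
        ∑ i ∈ Finset.range n, ∫ z in (b i)..(b (i + 1)), 2 * z * h z := by
      rw [intervalIntegral.sum_integral_adjacent_intervals (a := b) (n := n)
        (fun k _ => hI _ _ (hb0 _) (hb0 _)), hb00, hbn]
    have hstep : ∀ i ∈ Finset.range n, ∫ z in (b i)..(b (i + 1)), 2 * z * h z ≤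
        (F (b (i + 1)) - F (b i)) + 2 * y ^ 2 / n * (h (b i) - h (b (i + 1))) := by
      intro i hi
      have hi' : i + 1 ≤ n := Finset.mem_range.1 hi
      have h1 := int_le hh (hb0 i) (hbs i)
      have h2 := hF (b i) (b (i + 1)) (hb0 i) (hbs i)
      have h3 : h (b (i + 1)) ≤ h (b i) :=
        hh (mem_Ici.2 (hb0 i)) (mem_Ici.2 (hb0 (i + 1))) (hbs i)
      have h4 : b (i + 1) ^ 2 - b i ^ 2 ≤ 2 * y ^ 2 / n := by
        have e1 : b (i + 1) - b i = y / n := by
          simp only [hb]; push_cast; field_simp; ring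
        have e2 : b (i + 1) + b i ≤ 2 * y := by
          have e3 : b (i + 1) ≤ y := by
            simp only [hb]
            rw [div_le_iff₀ hn']
            have : ((i + 1 : ℕ) : ℝ) ≤ n := by exact_mod_cast hi'
            nlinarith
          linarith [hbs i]
        have e4 : b (i + 1) ^ 2 - b i ^ 2 = (b (i + 1) - b i) * (b (i + 1) + b i) := by ring
        rw [e4, e1]
        calc y / n * (b (i + 1) + b i) ≤ y / n * (2 * y) :=
              mul_le_mul_of_nonneg_left e2 (by positivity)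
          _ = 2 * y ^ 2 / n := by ring
      have h5 : (b (i + 1) ^ 2 - b i ^ 2) * (h (b i) - h (b (i + 1))) ≤
          2 * y ^ 2 / n * (h (b i) - h (b (i + 1))) :=
        mul_le_mul_of_nonneg_right h4 (by linarith)
      nlinarith
    rw [hsum]
    refine (Finset.sum_le_sum hstep).trans ?_
    rw [Finset.sum_add_distrib, ← Finset.mul_sum, Finset.sum_range_sub (fun i => F (b i)),
      Finset.sum_range_sub' (fun i => h (b i)), hbn, hb00]
    apply le_of_eq
    ring
  have hlim : Filter.Tendsto (fun n : ℕ => F y - F 0 + 2 * y ^ 2 * (h 0 - h y) / n)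
      Filter.atTop (nhds (F y - F 0 + 0)) :=
    Filter.Tendsto.const_add _ (tendsto_const_div_atTop_nhds_zero_nat _)
  rw [add_zero] at hlim
  refine ge_of_tendsto hlim ?_
  filter_upwards [Filter.eventually_gt_atTop 0] with n hn using key n hn

theorem SuperGrad.mono {U u : ℝ → ℝ} (h : SuperGrad U u) (hu : ∀ z, 0 ≤ z → 0 ≤ u z)
    {a b : ℝ} (ha : 0 ≤ a) (hab : a ≤ b) : U a ≤ U b := by
  have hb := ha.trans hab
  have h1 := h b a hb ha
  have h2 : 0 ≤ u b * (b - a) := mul_nonneg (hu b hb) (by linarith)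
  linarith

/-- **The product inequality.** -/
theorem prod_weight {U W u v w : ℝ → ℝ} {p B B' : ℝ} (hp : 0 < p)
    (hU : SuperGrad U u) (hW : SuperGrad W v) (hU0 : 0 ≤ U 0) (hW0 : 0 ≤ W 0)
    (hu : ∀ z, 0 ≤ z → 0 ≤ u z) (hv : ∀ z, 0 ≤ z → 0 ≤ v z)
    (hUB : ∀ z, 0 ≤ z → U z ≤ B) (hWB : ∀ z, 0 ≤ z → W z ≤ B')
    (hwm : Measurable w) (hw : ∀ z, 0 < z → 0 ≤ w z) (hwi : IntegrableOn w (Ioi 0))
    (htail : ∀ z, 0 < z → (1 + z) * w z ≤ 2 * p * ∫ y in Ioi z, w y) :
    IntegrableOn (fun z => U z * W z * w z) (Ioi 0) ∧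
    IntegrableOn (fun z => z * (1 + z) / p * (u z * v z) * w z) (Ioi 0) ∧
    ∫ z in Ioi (0 : ℝ), z * (1 + z) / p * (u z * v z) * w z ≤
      ∫ z in Ioi (0 : ℝ), U z * W z * w z := by
  -- measurable versions
  have hUt : Monotone fun z => U (max z 0) := fun a b hab =>
    hU.mono hu (le_max_right _ _) (max_le_max_right 0 hab)
  have hWt : Monotone fun z => W (max z 0) := fun a b hab =>
    hW.mono hv (le_max_right _ _) (max_le_max_right 0 hab)
  have hh : AntitoneOn (fun z => u z * v z) (Ici 0) := fun a ha b hb hab =>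
    mul_le_mul (hU.antitone ha hb hab) (hW.antitone ha hb hab) (hv b hb) (hu a ha)
  have hht : Antitone fun z => u (max z 0) * v (max z 0) := fun a b hab =>
    hh (mem_Ici.2 (le_max_right _ _)) (mem_Ici.2 (le_max_right _ _)) (max_le_max_right 0 hab)
  have hmax : ∀ z : ℝ, 0 < z → max z 0 = z := fun z hz => max_eq_left hz.le
  have hUn : ∀ z, 0 ≤ z → 0 ≤ U z := fun z hz => hU0.trans (hU.mono hu le_rfl hz)
  have hWn : ∀ z, 0 ≤ z → 0 ≤ W z := fun z hz => hW0.trans (hW.mono hv le_rfl hz)
  -- integrability of `U W w`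
  have hFi : IntegrableOn (fun z => U z * W z * w z) (Ioi 0) := by
    have h1 : IntegrableOn (fun z => (U (max z 0) * W (max z 0)) * w z) (Ioi 0) := by
      refine Integrable.bdd_mul (c := B * B') hwi
        ((hUt.measurable.mul hWt.measurable).aestronglyMeasurable) ?_
      filter_upwards with z
      have h0 : (0 : ℝ) ≤ max z 0 := le_max_right _ _
      rw [Real.norm_eq_abs, abs_of_nonneg (mul_nonneg (hUn _ h0) (hWn _ h0))]
      exact mul_le_mul (hUB _ h0) (hWB _ h0) (hWn _ h0) ((hUn _ h0).trans (hUB _ h0))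
    refine h1.congr_fun (fun z hz => ?_) measurableSet_Ioi
    simp only [hmax z hz]
  -- the primitive
  have hprim : ∀ y : ℝ, 0 ≤ y → ∫ z in (0 : ℝ)..y, 2 * z * (u z * v z) ≤ U y * W y := by
    intro y hy
    have h1 := prim_le (F := fun z => U z * W z) hh (fun a b ha hab =>
      prod_step hU hW hU0 hW0 hu hv ha hab) hy
    have h2 : 0 ≤ U 0 * W 0 := mul_nonneg hU0 hW0
    have h1 : (∫ z in (0 : ℝ)..y, 2 * z * (u z * v z)) ≤ U y * W y - U 0 * W 0 := h1
    linarith
  -- Tonelli
  set g : ℝ → ENNReal := fun z => ENNReal.ofReal (2 * z * (u (max z 0) * v (max z 0))) with hg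
  set o : ℝ → ENNReal := fun y => ENNReal.ofReal (w y) with ho
  have hgm : Measurable g := by
    rw [hg]
    exact ((measurable_const.mul measurable_id).mul hht.measurable).ennreal_ofReal
  have hom : Measurable o := hwm.ennreal_ofReal
  have hT : ∀ z : ℝ, 0 < z → ENNReal.ofReal (∫ y in Ioi z, w y) = ∫⁻ y in Ioi z, o y := by
    intro z hz
    rw [ofReal_integral_eq_lintegral_ofReal (hwi.mono_set (Ioi_subset_Ioi hz.le))]
    filter_upwards [ae_restrict_mem measurableSet_Ioi] with y hy
    exact hw y (hz.trans hy)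
  have hin : ∀ y : ℝ, 0 < y → ∫⁻ z in Ioo 0 y, g z ≤ ENNReal.ofReal (U y * W y) := by
    intro y hy
    have hI : IntervalIntegrable (fun z => 2 * z * (u z * v z)) volume 0 y := by
      refine IntervalIntegrable.continuousOn_mul ?_ (by fun_prop)
      apply AntitoneOn.intervalIntegrable
      rw [uIcc_of_le hy.le]
      exact hh.mono fun x hx => mem_Ici.2 hx.1
    have h1 : ∫⁻ z in Ioo 0 y, g z = ENNReal.ofReal (∫ z in (0 : ℝ)..y, 2 * z * (u z * v z)) := by
      rw [intervalIntegral.integral_of_le hy.le, integral_Ioc_eq_integral_Ioo,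
        ofReal_integral_eq_lintegral_ofReal]
      · refine setLIntegral_congr_fun measurableSet_Ioo fun z hz => ?_
        simp only [hg, hmax z hz.1]
      · exact (intervalIntegrable_iff_integrableOn_Ioo_of_le hy.le).1 hI
      · filter_upwards [ae_restrict_mem measurableSet_Ioo] with z hz
        exact mul_nonneg (by linarith [hz.1]) (mul_nonneg (hu z hz.1.le) (hv z hz.1.le))
    rw [h1]
    exact ENNReal.ofReal_le_ofReal (hprim y hy.le)
  have hswap : ∫⁻ z in Ioi (0 : ℝ), g z * ∫⁻ y in Ioi z, o y ≤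
      ∫⁻ y in Ioi (0 : ℝ), ENNReal.ofReal (U y * W y) * o y := by
    have e1 : ∫⁻ z in Ioi (0 : ℝ), g z * ∫⁻ y in Ioi z, o y =
        ∫⁻ z in Ioi (0 : ℝ), ∫⁻ y in Ioi (0 : ℝ), {q : ℝ × ℝ | q.1 < q.2}.indicator
          (fun q => g q.1 * o q.2) (z, y) := by
      refine setLIntegral_congr_fun measurableSet_Ioi fun z hz => ?_
      rw [← lintegral_const_mul _ hom, ← lintegral_indicator measurableSet_Ioi,
        ← lintegral_indicator measurableSet_Ioi]
      refine lintegral_congr fun y => ?_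
      by_cases hy : z < y
      · have hy0 : (0 : ℝ) < y := lt_trans hz hy
        simp [indicator, hy, hy0]
      · simp [indicator, hy]
    have e2 : ∫⁻ z in Ioi (0 : ℝ), ∫⁻ y in Ioi (0 : ℝ), {q : ℝ × ℝ | q.1 < q.2}.indicator
          (fun q => g q.1 * o q.2) (z, y) =
        ∫⁻ y in Ioi (0 : ℝ), ∫⁻ z in Ioi (0 : ℝ), {q : ℝ × ℝ | q.1 < q.2}.indicator
          (fun q => g q.1 * o q.2) (z, y) := by
      refine lintegral_lintegral_swap ?_
      refine Measurable.aemeasurable ?_
      exact ((hgm.comp measurable_fst).mul (hom.comp measurable_snd)).indicator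
        (measurableSet_lt measurable_fst measurable_snd)
    rw [e1, e2]
    refine setLIntegral_mono' measurableSet_Ioi fun y hy => ?_
    have e3 : ∫⁻ z in Ioi (0 : ℝ), {q : ℝ × ℝ | q.1 < q.2}.indicator
          (fun q => g q.1 * o q.2) (z, y) = (∫⁻ z in Ioo 0 y, g z) * o y := by
      rw [← lintegral_mul_const _ hgm, ← lintegral_indicator measurableSet_Ioi,
        ← lintegral_indicator measurableSet_Ioo]
      refine lintegral_congr fun z => ?_
      by_cases hz : 0 < z
      · by_cases hzy : z < y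
        · simp [indicator, hz, hzy]
        · simp [indicator, hz, hzy]
      · simp [indicator, hz]
    rw [e3]
    gcongr
    exact hin y hy
  have hfin : ∫⁻ y in Ioi (0 : ℝ), ENNReal.ofReal (U y * W y) * o y =
      ENNReal.ofReal (∫ y in Ioi (0 : ℝ), U y * W y * w y) := by
    rw [ofReal_integral_eq_lintegral_ofReal hFi]
    · refine setLIntegral_congr_fun measurableSet_Ioi fun y hy => ?_
      simp only [ho]
      rw [← ENNReal.ofReal_mul (mul_nonneg (hUn y (le_of_lt hy)) (hWn y (le_of_lt hy)))]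
    · filter_upwards [ae_restrict_mem measurableSet_Ioi] with y hy
      exact mul_nonneg (mul_nonneg (hUn y (le_of_lt hy)) (hWn y (le_of_lt hy))) (hw y hy)
  have hleft : ∫⁻ z in Ioi (0 : ℝ), ENNReal.ofReal (z * (1 + z) / p * (u z * v z) * w z) ≤
      ENNReal.ofReal (∫ y in Ioi (0 : ℝ), U y * W y * w y) := by
    rw [← hfin]
    refine le_trans ?_ hswap
    refine setLIntegral_mono' measurableSet_Ioi fun z hz => ?_
    have hz' : (0 : ℝ) < z := hz
    have hn : 0 ≤ 2 * z * (u z * v z) :=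
      mul_nonneg (by linarith) (mul_nonneg (hu z hz'.le) (hv z hz'.le))
    rw [← hT z hz', hg]
    simp only [hmax z hz']
    rw [← ENNReal.ofReal_mul hn]
    apply ENNReal.ofReal_le_ofReal
    have h1 := htail z hz'
    have h2 : z * (1 + z) / p * (u z * v z) * w z = (z * (u z * v z) / p) * ((1 + z) * w z) := by
      ring
    rw [h2]
    calc (z * (u z * v z) / p) * ((1 + z) * w z)
        ≤ (z * (u z * v z) / p) * (2 * p * ∫ y in Ioi z, w y) :=
          mul_le_mul_of_nonneg_left h1 (div_nonneg (mul_nonneg hz'.le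
            (mul_nonneg (hu z hz'.le) (hv z hz'.le))) hp.le)
      _ = 2 * z * (u z * v z) * ∫ y in Ioi z, w y := by
          field_simp
  have hln : ∀ z, 0 < z → 0 ≤ z * (1 + z) / p * (u z * v z) * w z := fun z hz =>
    mul_nonneg (mul_nonneg (div_nonneg (mul_nonneg hz.le (by linarith)) hp.le)
      (mul_nonneg (hu z hz.le) (hv z hz.le))) (hw z hz)
  have hLi : IntegrableOn (fun z => z * (1 + z) / p * (u z * v z) * w z) (Ioi 0) := by
    have hm : AEStronglyMeasurable (fun z => z * (1 + z) / p * (u z * v z) * w z)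
        (volume.restrict (Ioi 0)) := by
      have h1 : Measurable fun z : ℝ => z * (1 + z) / p * (u (max z 0) * v (max z 0)) * w z :=
        (((measurable_id.mul (measurable_const.add measurable_id)).div_const p).mul
          hht.measurable).mul hwm
      refine h1.aestronglyMeasurable.congr ?_
      filter_upwards [ae_restrict_mem measurableSet_Ioi] with z hz
      simp only [hmax z hz]
    refine ⟨hm, ?_⟩
    rw [hasFiniteIntegral_iff_ofReal]
    · exact lt_of_le_of_lt hleft ENNReal.ofReal_lt_top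
    · filter_upwards [ae_restrict_mem measurableSet_Ioi] with z hz using hln z hz
  refine ⟨hFi, hLi, ?_⟩
  have h1 : ENNReal.ofReal (∫ z in Ioi (0 : ℝ), z * (1 + z) / p * (u z * v z) * w z) ≤
      ENNReal.ofReal (∫ y in Ioi (0 : ℝ), U y * W y * w y) := by
    rw [ofReal_integral_eq_lintegral_ofReal hLi]
    · exact hleft
    · filter_upwards [ae_restrict_mem measurableSet_Ioi] with z hz using hln z hz
  refine (ENNReal.ofReal_le_ofReal_iff ?_).1 h1
  refine setIntegral_nonneg measurableSet_Ioi fun y hy => ?_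
  exact mul_nonneg (mul_nonneg (hUn y (le_of_lt hy)) (hWn y (le_of_lt hy))) (hw y hy)

end Pool.Agent.Lib_helper14.MOD
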