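import Pool.Agent.Lib_helper14.MOD.L4

/-!
# (MOD) from (K*): the weight `z^(n-p-1) (1+z)^(-n-1)` and the combination

`mod_of_kstar`: if `tauVW z ≥ tauV z * tauW z - z (1 + z) / p * u z * v z` for `z > 0`, where `u`, `v`
are supergradients of `m - tauV`, `m' - tauW`, then `∫ tauVW w ≥ m ∫ tauW w + m' ∫ tauV w - m m' ∫ w`
for the weight `w(z) = z^(n-p-1) (1+z)^(-n-1)`, `n ≥ p + 1`, `p ≥ 1`.
-/

set_option autoImplicit false

namespace Pool.Agent.Lib_helper14.MOD

open MeasureTheory Set Filter Topology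

/-- the weight -/
noncomputable def wt (p n z : ℝ) : ℝ := z ^ (n - p - 1) * (1 + z) ^ (-n - 1)

theorem measurable_wt (p n : ℝ) : Measurable (wt p n) :=
  (measurable_id.pow_const _).mul ((measurable_const.add measurable_id).pow_const _)

theorem wt_nonneg (p n : ℝ) {z : ℝ} (hz : 0 < z) : 0 ≤ wt p n z :=
  mul_nonneg (Real.rpow_nonneg hz.le _) (Real.rpow_nonneg (by linarith) _)

theorem wt_pos (p n : ℝ) {z : ℝ} (hz : 0 < z) : 0 < wt p n z :=
  mul_pos (Real.rpow_pos_of_pos hz _) (Real.rpow_pos_of_pos (by linarith) _)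

/-- the tail of `(1 + y) ^ (-p - 2)` -/
theorem tail_int {p z : ℝ} (hp : 0 < p) (hz : 0 ≤ z) :
    IntegrableOn (fun y : ℝ => (1 + y) ^ (-p - 2)) (Ioi z) ∧
    ∫ y in Ioi z, (1 + y) ^ (-p - 2) = (1 + z) ^ (-p - 1) / (p + 1) := by
  set g : ℝ → ℝ := fun y => -((1 + y) ^ (-p - 1) / (p + 1)) with hg
  have hderiv : ∀ x ∈ Ici z, HasDerivAt g ((1 + x) ^ (-p - 2)) x := by
    intro x hx
    have hx0 : 0 < 1 + x := by have := mem_Ici.1 hx; linarith
    have h1 : HasDerivAt (fun y : ℝ => 1 + y) 1 x := (hasDerivAt_id x).const_add 1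
    have h2 := (h1.rpow_const (p := -p - 1) (Or.inl hx0.ne')).div_const (p + 1)
    have h3 := h2.neg
    refine h3.congr_deriv ?_
    have h4 : -p - 1 - 1 = -p - 2 := by ring
    rw [h4]
    have h5 : p + 1 ≠ 0 := by linarith
    field_simp
    ring
  have hpos : ∀ x ∈ Ioi z, 0 ≤ (1 + x) ^ (-p - 2) := fun x hx =>
    Real.rpow_nonneg (by have := mem_Ioi.1 hx; linarith) _
  have hlim : Tendsto g atTop (𝓝 0) := by
    have h1 : Tendsto (fun y : ℝ => (1 + y) ^ (-p - 1)) atTop (𝓝 0) := by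
      have h2 := tendsto_rpow_neg_atTop (y := p + 1) (by linarith)
      have h3 : Tendsto (fun y : ℝ => 1 + y) atTop atTop := tendsto_atTop_add_const_left _ _ tendsto_id
      have h4 := h2.comp h3
      refine h4.congr fun y => ?_
      simp only [Function.comp]
      congr 1
      ring
    have h5 := (h1.div_const (p + 1)).neg
    simpa using h5
  refine ⟨integrableOn_Ioi_deriv_of_nonneg' hderiv hpos hlim, ?_⟩
  rw [integral_Ioi_of_hasDerivAt_of_nonneg' hderiv hpos hlim]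
  simp only [hg]
  ring

theorem wt_le {p n y : ℝ} (hn : p + 1 ≤ n) (hy : 0 < y) : wt p n y ≤ (1 + y) ^ (-p - 2) := by
  have h1 : y ^ (n - p - 1) ≤ (1 + y) ^ (n - p - 1) :=
    Real.rpow_le_rpow hy.le (by linarith) (by linarith)
  have h2 : (1 + y) ^ (-p - 2) = (1 + y) ^ (n - p - 1) * (1 + y) ^ (-n - 1) := by
    rw [← Real.rpow_add (by linarith)]
    congr 1
    ring
  rw [h2]
  exact mul_le_mul_of_nonneg_right h1 (Real.rpow_nonneg (by linarith) _)

theorem integrable_wt {p n : ℝ} (hp : 0 < p) (hn : p + 1 ≤ n) : IntegrableOn (wt p n) (Ioi 0) := by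
  refine Integrable.mono' (tail_int hp le_rfl).1 (measurable_wt p n).aestronglyMeasurable ?_
  filter_upwards [ae_restrict_mem measurableSet_Ioi] with y hy
  rw [Real.norm_of_nonneg (wt_nonneg p n hy)]
  exact wt_le hn hy

/-- the tail condition -/
theorem wt_tail {p n z : ℝ} (hp : 1 ≤ p) (hn : p + 1 ≤ n) (hz : 0 < z) :
    (1 + z) * wt p n z ≤ 2 * p * ∫ y in Ioi z, wt p n y := by
  have hp0 : 0 < p := by linarith
  have h1z : 0 < 1 + z := by linarith
  set k : ℝ := (z / (1 + z)) ^ (n - p - 1) with hk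
  have hk0 : 0 ≤ k := Real.rpow_nonneg (by positivity) _
  have hle : ∫ y in Ioi z, k * (1 + y) ^ (-p - 2) ≤ ∫ y in Ioi z, wt p n y := by
    refine setIntegral_mono_on ((tail_int hp0 hz.le).1.const_mul k)
      ((integrable_wt hp0 hn).mono_set (Ioi_subset_Ioi hz.le)) measurableSet_Ioi fun y hy => ?_
    have hy' : z < y := hy
    have hy0 : 0 < y := hz.trans hy'
    have h1y : 0 < 1 + y := by linarith
    have h2 : wt p n y = (y / (1 + y)) ^ (n - p - 1) * (1 + y) ^ (-p - 2) := by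
      unfold wt
      rw [Real.div_rpow hy0.le h1y.le, div_mul_eq_mul_div, eq_div_iff
        (Real.rpow_pos_of_pos h1y _).ne', mul_assoc, ← Real.rpow_add h1y]
      congr 2
      ring
    rw [h2]
    refine mul_le_mul_of_nonneg_right ?_ (Real.rpow_nonneg h1y.le _)
    refine Real.rpow_le_rpow (by positivity) ?_ (by linarith)
    rw [div_le_div_iff₀ h1z h1y]
    nlinarith
  rw [integral_const_mul, (tail_int hp0 hz.le).2] at hle
  have h3 : (1 + z) * wt p n z = k * (1 + z) ^ (-p - 1) := by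
    unfold wt
    rw [hk, Real.div_rpow hz.le h1z.le, div_mul_eq_mul_div, eq_div_iff
      (Real.rpow_pos_of_pos h1z _).ne']
    have e1 : (1 + z) * (z ^ (n - p - 1) * (1 + z) ^ (-n - 1)) * (1 + z) ^ (n - p - 1) =
        z ^ (n - p - 1) * ((1 + z) ^ (1 : ℝ) * (1 + z) ^ (-n - 1) * (1 + z) ^ (n - p - 1)) := by
      rw [Real.rpow_one]; ring
    rw [e1, ← Real.rpow_add h1z, ← Real.rpow_add h1z]
    congr 2
    ring
  rw [h3]
  have h4 : 0 ≤ k * (1 + z) ^ (-p - 1) := mul_nonneg hk0 (Real.rpow_nonneg h1z.le _)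
  have h5 : k * ((1 + z) ^ (-p - 1) / (p + 1)) = k * (1 + z) ^ (-p - 1) / (p + 1) := by ring
  rw [h5] at hle
  have h6 : k * (1 + z) ^ (-p - 1) ≤ 2 * p * (k * (1 + z) ^ (-p - 1) / (p + 1)) := by
    rw [mul_div_assoc', le_div_iff₀ (by linarith)]
    nlinarith
  calc k * (1 + z) ^ (-p - 1) ≤ 2 * p * (k * (1 + z) ^ (-p - 1) / (p + 1)) := h6
    _ ≤ 2 * p * ∫ y in Ioi z, wt p n y := mul_le_mul_of_nonneg_left hle (by linarith)

theorem mod_of_kstar_gen {tV tW tVW u v w : ℝ → ℝ} {p m m' : ℝ} (hp : 0 < p)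
    (hV : SuperGrad (fun z => m - tV z) u) (hW : SuperGrad (fun z => m' - tW z) v)
    (hu : ∀ z, 0 ≤ z → 0 ≤ u z) (hv : ∀ z, 0 ≤ z → 0 ≤ v z)
    (hV0 : ∀ z, 0 ≤ z → 0 ≤ tV z) (hW0 : ∀ z, 0 ≤ z → 0 ≤ tW z)
    (hVm : tV 0 ≤ m) (hWm : tW 0 ≤ m')
    (hwm : Measurable w) (hw : ∀ z, 0 < z → 0 ≤ w z) (hwi : IntegrableOn w (Ioi 0))
    (htail : ∀ z, 0 < z → (1 + z) * w z ≤ 2 * p * ∫ y in Ioi z, w y)
    (hK : ∀ z, 0 < z → tV z * tW z - z * (1 + z) / p * (u z * v z) ≤ tVW z)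
    (hi : IntegrableOn (fun z => w z * tVW z) (Ioi 0)) :
    m * (∫ z in Ioi (0 : ℝ), w z * tW z) + m' * (∫ z in Ioi (0 : ℝ), w z * tV z) -
      m * m' * (∫ z in Ioi (0 : ℝ), w z) ≤ ∫ z in Ioi (0 : ℝ), w z * tVW z := by
  obtain ⟨hF, hG, hle⟩ := prod_weight (U := fun z => m - tV z) (W := fun z => m' - tW z)
    (B := m) (B' := m') hp hV hW (by linarith) (by linarith) hu hv
    (fun z hz => by have := hV0 z hz; linarith) (fun z hz => by have := hW0 z hz; linarith)
    hwm hw hwi htail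
  -- integrability of `w tV` and `w tW`
  have hint : ∀ (t s : ℝ → ℝ) (c : ℝ), SuperGrad (fun z => c - t z) s → (∀ z, 0 ≤ z → 0 ≤ s z) →
      (∀ z, 0 ≤ z → 0 ≤ t z) → t 0 ≤ c → IntegrableOn (fun z => w z * t z) (Ioi 0) := by
    intro t s c h1 h2 h3 h4
    have hm : Monotone fun z => c - t (max z 0) := fun a b hab =>
      h1.mono h2 (le_max_right _ _) (max_le_max_right 0 hab)
    have hm' : Measurable fun z => t (max z 0) := by
      have e : (fun z => t (max z 0)) = fun z => c - (c - t (max z 0)) := by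
        funext z
        ring
      rw [e]
      exact measurable_const.sub hm.measurable
    have hb : IntegrableOn (fun z => t (max z 0) * w z) (Ioi 0) := by
      refine Integrable.bdd_mul (c := c) hwi hm'.aestronglyMeasurable ?_
      filter_upwards with z
      have h0 : (0 : ℝ) ≤ max z 0 := le_max_right _ _
      rw [Real.norm_eq_abs, abs_of_nonneg (h3 _ h0)]
      have h5 : c - t 0 ≤ c - t (max z 0) := h1.mono h2 le_rfl h0
      linarith
    refine hb.congr_fun (fun z hz => ?_) measurableSet_Ioi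
    have hz' : (0 : ℝ) < z := hz
    simp only [max_eq_left hz'.le]
    ring
  have hiV := hint tV u m hV hu hV0 hVm
  have hiW := hint tW v m' hW hv hW0 hWm
  -- the lower bound
  have h1 : ∫ z in Ioi (0 : ℝ), (m * (w z * tW z) + m' * (w z * tV z) - m * m' * w z +
      ((m - tV z) * (m' - tW z) * w z - z * (1 + z) / p * (u z * v z) * w z)) ≤
      ∫ z in Ioi (0 : ℝ), w z * tVW z := by
    refine setIntegral_mono_on ?_ hi measurableSet_Ioi fun z hz => ?_
    · exact (((hiW.const_mul m).add (hiV.const_mul m')).sub (hwi.const_mul (m * m'))).add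
        (hF.sub hG)
    · have h2 := mul_le_mul_of_nonneg_left (hK z hz) (hw z hz)
      nlinarith
  have h2 : ∫ z in Ioi (0 : ℝ), (m * (w z * tW z) + m' * (w z * tV z) - m * m' * w z +
      ((m - tV z) * (m' - tW z) * w z - z * (1 + z) / p * (u z * v z) * w z)) =
      m * (∫ z in Ioi (0 : ℝ), w z * tW z) + m' * (∫ z in Ioi (0 : ℝ), w z * tV z) -
      m * m' * (∫ z in Ioi (0 : ℝ), w z) +
      ((∫ z in Ioi (0 : ℝ), (m - tV z) * (m' - tW z) * w z) -
        ∫ z in Ioi (0 : ℝ), z * (1 + z) / p * (u z * v z) * w z) := by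
    have i1 : IntegrableOn (fun z => m * (w z * tW z)) (Ioi 0) := hiW.const_mul m
    have i2 : IntegrableOn (fun z => m' * (w z * tV z)) (Ioi 0) := hiV.const_mul m'
    have i3 : IntegrableOn (fun z => m * m' * w z) (Ioi 0) := hwi.const_mul (m * m')
    have i12 : IntegrableOn (fun z => m * (w z * tW z) + m' * (w z * tV z)) (Ioi 0) := i1.add i2
    have i123 : IntegrableOn (fun z => m * (w z * tW z) + m' * (w z * tV z) - m * m' * w z)
        (Ioi 0) := i12.sub i3
    have i45 : IntegrableOn (fun z => (m - tV z) * (m' - tW z) * w z -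
        z * (1 + z) / p * (u z * v z) * w z) (Ioi 0) := hF.sub hG
    rw [integral_add i123 i45, integral_sub i12 i3, integral_add i1 i2, integral_sub hF hG,
      integral_const_mul, integral_const_mul, integral_const_mul]
  rw [h2] at h1
  linarith

/-- **(MOD) from (K*).** -/
theorem mod_of_kstar {tV tW tVW u v : ℝ → ℝ} {p n m m' : ℝ} (hp : 1 ≤ p) (hn : p + 1 ≤ n)
    (hV : SuperGrad (fun z => m - tV z) u) (hW : SuperGrad (fun z => m' - tW z) v)
    (hu : ∀ z, 0 ≤ z → 0 ≤ u z) (hv : ∀ z, 0 ≤ z → 0 ≤ v z)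
    (hV0 : ∀ z, 0 ≤ z → 0 ≤ tV z) (hW0 : ∀ z, 0 ≤ z → 0 ≤ tW z)
    (hVm : tV 0 ≤ m) (hWm : tW 0 ≤ m')
    (hK : ∀ z, 0 < z → tV z * tW z - z * (1 + z) / p * (u z * v z) ≤ tVW z)
    (hi : IntegrableOn (fun z => z ^ (n - p - 1) * (1 + z) ^ (-n - 1) * tVW z) (Ioi 0)) :
    m * (∫ z in Ioi (0 : ℝ), z ^ (n - p - 1) * (1 + z) ^ (-n - 1) * tW z) +
      m' * (∫ z in Ioi (0 : ℝ), z ^ (n - p - 1) * (1 + z) ^ (-n - 1) * tV z) -
      m * m' * (∫ z in Ioi (0 : ℝ), z ^ (n - p - 1) * (1 + z) ^ (-n - 1)) ≤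
      ∫ z in Ioi (0 : ℝ), z ^ (n - p - 1) * (1 + z) ^ (-n - 1) * tVW z :=
  mod_of_kstar_gen (w := wt p n) (by linarith) hV hW hu hv hV0 hW0 hVm hWm (measurable_wt p n)
    (fun _ hz => wt_nonneg p n hz) (integrable_wt (by linarith) hn)
    (fun _ hz => wt_tail hp hn hz) hK hi

/-- the normalisation is positive -/
theorem wt_integral_pos {p n : ℝ} (hp : 1 ≤ p) (hn : p + 1 ≤ n) :
    0 < ∫ z in Ioi (0 : ℝ), z ^ (n - p - 1) * (1 + z) ^ (-n - 1) := by
  have h1 := wt_tail hp hn (z := 1) one_pos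
  have h2 : 0 < (1 + (1 : ℝ)) * wt p n 1 := mul_pos (by norm_num) (wt_pos p n one_pos)
  have h3 : 0 < ∫ y in Ioi (1 : ℝ), wt p n y := by
    have : 0 < 2 * p * ∫ y in Ioi (1 : ℝ), wt p n y := lt_of_lt_of_le h2 h1
    exact (mul_pos_iff_of_pos_left (by linarith)).1 this
  refine lt_of_lt_of_le h3 ?_
  refine setIntegral_mono_set (integrable_wt (by linarith) hn) ?_
    (Ioi_subset_Ioi zero_le_one).eventuallyLE
  filter_upwards [ae_restrict_mem measurableSet_Ioi] with z hz using wt_nonneg p n hz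

end Pool.Agent.Lib_helper14.MOD
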